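import Mathlib

set_option autoImplicit false

open Pointwise Matrix

namespace Pool.Agent.Results.MP_104382_al.SquareNotFParadoxical

/-- `E` is `G`-paradoxical: there are finitely many (at least one of each kind) subsets
`A i`, `B j` of `E`, pairwise disjoint, and group elements `g i`, `h j` such that the translates
`g i • A i` cover exactly `E` and the translates `h j • B j` cover exactly `E`. -/
def IsParadoxical (G : Type*) [Group G] {X : Type*} [MulAction G X] (E : Set X) : Prop :=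
  ∃ (n m : ℕ) (A : Fin n → Set X) (B : Fin m → Set X) (g : Fin n → G) (h : Fin m → G),
    0 < n ∧ 0 < m ∧
    (∀ i, A i ⊆ E) ∧ (∀ j, B j ⊆ E) ∧
    (∀ i i', i ≠ i' → Disjoint (A i) (A i')) ∧
    (∀ j j', j ≠ j' → Disjoint (B j) (B j')) ∧
    (∀ i j, Disjoint (A i) (B j)) ∧
    E = ⋃ i, g i • A i ∧
    E = ⋃ j, h j • B j

/-- The matrix `a = (1 2; 0 1)` as an element of `SL₂(ℝ)`. -/
def matA : SpecialLinearGroup (Fin 2) ℝ :=
  ⟨!![1, 2; 0, 1], by simp [Matrix.det_fin_two_of]⟩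

/-- The matrix `b = aᵀ = (1 0; 2 1)` as an element of `SL₂(ℝ)`. -/
def matB : SpecialLinearGroup (Fin 2) ℝ :=
  ⟨!![1, 0; 2, 1], by simp [Matrix.det_fin_two_of]⟩

/-- The group `F` generated by `a` and `b`, as a subgroup of `SL₂(ℝ)`; it acts on `ℝ²` by the
restriction of the linear action of `SL₂(ℝ)`. -/
def groupF : Subgroup (SpecialLinearGroup (Fin 2) ℝ) := Subgroup.closure {matA, matB}

/-- The open unit square `(0,1) × (0,1)`. -/
def openSquare : Set (Fin 2 → ℝ) := {v | (0 < v 0 ∧ v 0 < 1) ∧ (0 < v 1 ∧ v 1 < 1)}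

/-- The integer matrix `(1 2; 0 1)`. -/
def intA : SpecialLinearGroup (Fin 2) ℤ :=
  ⟨!![1, 2; 0, 1], by simp [Matrix.det_fin_two_of]⟩

/-- The integer matrix `(1 0; 2 1)`. -/
def intB : SpecialLinearGroup (Fin 2) ℤ :=
  ⟨!![1, 0; 2, 1], by simp [Matrix.det_fin_two_of]⟩

lemma map_intA : SpecialLinearGroup.map (Int.castRingHom ℝ) intA = matA := by
  apply Subtype.ext
  change (intA : Matrix (Fin 2) (Fin 2) ℤ).map (Int.castRingHom ℝ) = !![1, 2; 0, 1]
  ext i j
  fin_cases i <;> fin_cases j <;> simp [intA]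

lemma map_intB : SpecialLinearGroup.map (Int.castRingHom ℝ) intB = matB := by
  apply Subtype.ext
  change (intB : Matrix (Fin 2) (Fin 2) ℤ).map (Int.castRingHom ℝ) = !![1, 0; 2, 1]
  ext i j
  fin_cases i <;> fin_cases j <;> simp [intB]

/-- All entries of the elements of `F` are integers. -/
lemma entries_int (M : SpecialLinearGroup (Fin 2) ℝ) (hM : M ∈ groupF) :
    ∃ N : SpecialLinearGroup (Fin 2) ℤ, M = SpecialLinearGroup.map (Int.castRingHom ℝ) N := by
  have hle : groupF ≤ (SpecialLinearGroup.map (n := Fin 2) (Int.castRingHom ℝ)).range := by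
    unfold groupF
    rw [Subgroup.closure_le]
    rintro x (rfl | rfl)
    · exact ⟨intA, map_intA⟩
    · exact ⟨intB, map_intB⟩
  obtain ⟨N, hN⟩ := hle hM
  exact ⟨N, hN.symm⟩

/-- The point `(3/4, 3/4)`. -/
noncomputable def pt : Fin 2 → ℝ := fun _ => 3 / 4

lemma pt_mem : pt ∈ openSquare := by
  refine ⟨⟨?_, ?_⟩, ?_, ?_⟩ <;> norm_num [pt]

/-- An element of `F` which sends the point `(3/4, 3/4)` into the open square fixes it. -/
lemma fixes (M : groupF) (h : M • pt ∈ openSquare) : M • pt = pt := by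
  obtain ⟨M, hM⟩ := M
  obtain ⟨N, hN⟩ := entries_int M hM
  have hMN : (M : Matrix (Fin 2) (Fin 2) ℝ)
      = (N : Matrix (Fin 2) (Fin 2) ℤ).map (Int.castRingHom ℝ) := by
    rw [hN, SpecialLinearGroup.map_apply_coe]; rfl
  have hc : ∀ i : Fin 2, ((⟨M, hM⟩ : groupF) • pt) i
      = (3 / 4) * (((N : Matrix (Fin 2) (Fin 2) ℤ) i 0
        + (N : Matrix (Fin 2) (Fin 2) ℤ) i 1 : ℤ) : ℝ) := by
    intro i
    have h1 : ((⟨M, hM⟩ : groupF) • pt)
        = Matrix.mulVec (M : Matrix (Fin 2) (Fin 2) ℝ) pt := rfl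
    rw [h1, hMN]
    simp only [Matrix.mulVec, dotProduct, Fin.sum_univ_two, pt, Matrix.map_apply,
      Int.coe_castRingHom]
    push_cast
    ring
  have key : ∀ i : Fin 2, ((⟨M, hM⟩ : groupF) • pt) i = 3 / 4 := by
    intro i
    have hpos : 0 < ((⟨M, hM⟩ : groupF) • pt) i := by
      fin_cases i
      · exact h.1.1
      · exact h.2.1
    have hlt : ((⟨M, hM⟩ : groupF) • pt) i < 1 := by
      fin_cases i
      · exact h.1.2
      · exact h.2.2
    rw [hc] at hpos hlt ⊢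
    generalize (N : Matrix (Fin 2) (Fin 2) ℤ) i 0 + (N : Matrix (Fin 2) (Fin 2) ℤ) i 1 = k
      at hpos hlt ⊢
    have h1 : (0 : ℝ) < (k : ℝ) := by linarith
    have h2 : (k : ℝ) < 2 := by linarith
    have h3 : 0 < k := by exact_mod_cast h1
    have h4 : k < 2 := by exact_mod_cast h2
    have h5 : k = 1 := by omega
    rw [h5]; norm_num
  funext i
  rw [key i]; rfl

/-- The open unit square is not `F`-paradoxical. -/
theorem result : ¬ IsParadoxical groupF openSquare := by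
  rintro ⟨n, m, A, B, g, h, -, -, hA, hB, -, -, hAB, hE1, hE2⟩
  have e1 : pt ∈ ⋃ i, g i • A i := hE1 ▸ pt_mem
  have e2 : pt ∈ ⋃ j, h j • B j := hE2 ▸ pt_mem
  rw [Set.mem_iUnion] at e1 e2
  obtain ⟨i, hi⟩ := e1
  obtain ⟨j, hj⟩ := e2
  rw [Set.mem_smul_set_iff_inv_smul_mem] at hi hj
  have fi := fixes _ (hA i hi)
  have fj := fixes _ (hB j hj)
  rw [fi] at hi
  rw [fj] at hj
  exact Set.disjoint_left.mp (hAB i j) hi hj

end Pool.Agent.Results.MP_104382_al.SquareNotFParadoxical
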