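import Mathlib

set_option autoImplicit false

open Pointwise Matrix

namespace Pool.Agent.Results.MP_104382_al.SquareSLParadoxical

/-- `E` is `G`-paradoxical: there are finitely many (at least one of each kind) subsets
`A i`, `B j` of `E`, pairwise disjoint, and group elements `g i`, `h j` such that the translates
`g i • A i` cover exactly `E` and the translates `h j • B j` cover exactly `E`. -/
def IsParadoxical (G : Type*) [Group G] {X : Type*} [MulAction G X] (E : Set X) : Prop :=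
  ∃ (n m : ℕ) (A : Fin n → Set X) (B : Fin m → Set X) (g : Fin n → G) (h : Fin m → G),
    0 < n ∧ 0 < m ∧
    (∀ i, A i ⊆ E) ∧ (∀ j, B j ⊆ E) ∧
    (∀ i i', i ≠ i' → Disjoint (A i) (A i')) ∧
    (∀ j j', j ≠ j' → Disjoint (B j) (B j')) ∧
    (∀ i j, Disjoint (A i) (B j)) ∧
    E = ⋃ i, g i • A i ∧
    E = ⋃ j, h j • B j

/-- The open unit square `(0,1) × (0,1)`. -/
def openSquare : Set (Fin 2 → ℝ) := {v | (0 < v 0 ∧ v 0 < 1) ∧ (0 < v 1 ∧ v 1 < 1)}

section valuation

/-- There is a valuation ring of the real field in which `17` is not invertible. -/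
lemma exists_val : ∃ V : ValuationSubring ℝ, V.valuation (17 : ℝ) < 1 := by
  let A : Subring ℝ := (Int.castRingHom ℝ).range
  let a : A := ⟨(17 : ℝ), ⟨17, by simp⟩⟩
  have hI : Ideal.span {a} ≠ ⊤ := by
    intro h
    rw [Ideal.span_singleton_eq_top, isUnit_iff_exists_inv] at h
    obtain ⟨⟨b, ⟨n, hn⟩⟩, hb⟩ := h
    have h1 : (17 : ℝ) * b = 1 := congrArg Subtype.val hb
    have h2 : (17 : ℝ) * (n : ℝ) = 1 := by
      have : (n : ℝ) = b := by simpa using hn
      rw [this]; exact h1
    have h3 : (17 : ℤ) * n = 1 := by exact_mod_cast h2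
    omega
  obtain ⟨B, -, hB⟩ := Ideal.image_subset_nonunits_valuationSubring _ hI
  refine ⟨B, ?_⟩
  rw [← ValuationSubring.mem_nonunits_iff]
  exact hB ⟨a, Ideal.subset_span rfl, rfl⟩

variable (V : ValuationSubring ℝ)

lemma val_int_le (n : ℤ) : V.valuation (n : ℝ) ≤ 1 := by
  rw [ValuationSubring.valuation_le_one_iff]
  exact intCast_mem V n

lemma val_int_eq (h17 : V.valuation (17 : ℝ) < 1) (n : ℤ) (hn : n % 17 ≠ 0) :
    V.valuation (n : ℝ) = 1 := by
  apply le_antisymm (val_int_le V n)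
  by_contra hlt
  push Not at hlt
  have hp : Prime (17 : ℤ) := by
    rw [Int.prime_iff_natAbs_prime]; norm_num
  have hco : IsCoprime n 17 := by
    rw [isCoprime_comm]
    exact (Prime.coprime_iff_not_dvd hp).mpr (fun h => hn (Int.emod_eq_zero_of_dvd h))
  obtain ⟨a, b, hab⟩ := hco
  have h1 : (a : ℝ) * n + b * 17 = 1 := by exact_mod_cast hab
  have h2 : V.valuation ((a : ℝ) * n + b * 17) < 1 := by
    apply V.valuation.map_add_lt
    · rw [map_mul]
      exact lt_of_le_of_lt (mul_le_of_le_one_left' (val_int_le V a)) hlt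
    · rw [map_mul]
      exact lt_of_le_of_lt (mul_le_of_le_one_left' (val_int_le V b)) h17
  rw [h1, map_one] at h2
  exact lt_irrefl _ h2

/-- The size of a vector. -/
noncomputable def sz (x y : ℝ) : V.ValueGroup := max (V.valuation x) (V.valuation y)

lemma val_lin_le (a b : ℤ) (x y : ℝ) : V.valuation (a * x + b * y) ≤ sz V x y := by
  apply V.valuation.map_add_le
  · rw [map_mul]
    exact (mul_le_of_le_one_left' (val_int_le V a)).trans (le_max_left _ _)
  · rw [map_mul]
    exact (mul_le_of_le_one_left' (val_int_le V b)).trans (le_max_right _ _)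

/-- Two linear forms with determinant prime to `17` cannot both be small. -/
lemma not_both (h17 : V.valuation (17 : ℝ) < 1) (a b c d : ℤ) (hdet : (a * d - b * c) % 17 ≠ 0)
    (x y : ℝ) (h1 : V.valuation (a * x + b * y) < sz V x y)
    (h2 : V.valuation (c * x + d * y) < sz V x y) : False := by
  have hv := val_int_eq V h17 _ hdet
  have hx : V.valuation x < sz V x y := by
    have e : V.valuation ((((a * d - b * c : ℤ)) : ℝ) * x) = V.valuation x := by
      rw [map_mul, hv, one_mul]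
    rw [← e]
    have e2 : (((a * d - b * c : ℤ)) : ℝ) * x = d * (a * x + b * y) + (-b : ℤ) * (c * x + d * y) := by
      push_cast; ring
    rw [e2]
    apply V.valuation.map_add_lt
    · rw [map_mul]
      exact lt_of_le_of_lt (mul_le_of_le_one_left' (val_int_le V d)) h1
    · rw [map_mul]
      exact lt_of_le_of_lt (mul_le_of_le_one_left' (val_int_le V _)) h2
  have hy : V.valuation y < sz V x y := by
    have e : V.valuation ((((a * d - b * c : ℤ)) : ℝ) * y) = V.valuation y := by
      rw [map_mul, hv, one_mul]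
    rw [← e]
    have e2 : (((a * d - b * c : ℤ)) : ℝ) * y = (-c : ℤ) * (a * x + b * y) + a * (c * x + d * y) := by
      push_cast; ring
    rw [e2]
    apply V.valuation.map_add_lt
    · rw [map_mul]
      exact lt_of_le_of_lt (mul_le_of_le_one_left' (val_int_le V _)) h1
    · rw [map_mul]
      exact lt_of_le_of_lt (mul_le_of_le_one_left' (val_int_le V _)) h2
  rcases max_choice (V.valuation x) (V.valuation y) with h | h
  · exact absurd hx (by unfold sz; rw [h]; exact lt_irrefl _)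
  · exact absurd hy (by unfold sz; rw [h]; exact lt_irrefl _)

end valuation

/-- The entries of the nine matrices, multiplied by `17`. -/
def m11 : Fin 9 → ℤ := ![9, 10, 11, 23, 19, 13, 18, 19, 19]
def m12 : Fin 9 → ℤ := ![-17, -19, -18, 2, 4, 7, -5, -8, -9]
def m21 : Fin 9 → ℤ := ![8, 1, 2, -18, -20, -19, -7, -9, -8]
def m22 : Fin 9 → ℤ := ![17, 27, 23, 11, 11, 12, 18, 19, 19]

lemma det_eq : ∀ l : Fin 9, m11 l * m22 l - m12 l * m21 l = 289 := by decide

lemma rows_indep : ∀ l k : Fin 9, l ≠ k → (m11 l * m12 k - m12 l * m11 k) % 17 ≠ 0 := by decide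

lemma cols_indep : ∀ l k : Fin 9, l ≠ k → ((-m21 l) * m11 k - m11 l * (-m21 k)) % 17 ≠ 0 := by
  decide

/-- The nine elements of `SL₂(ℝ)`. -/
noncomputable def mat (l : Fin 9) : SpecialLinearGroup (Fin 2) ℝ :=
  ⟨!![(m11 l : ℝ) / 17, (m12 l : ℝ) / 17; (m21 l : ℝ) / 17, (m22 l : ℝ) / 17], by
    rw [Matrix.det_fin_two_of]
    have h : (m11 l : ℝ) * m22 l - m12 l * m21 l = 289 := by exact_mod_cast det_eq l
    field_simp
    linarith⟩

lemma mat_smul_zero (l : Fin 9) (x : Fin 2 → ℝ) :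
    (mat l • x) 0 = (m11 l * x 0 + m12 l * x 1) / 17 := by
  change (Matrix.mulVec !![(m11 l : ℝ) / 17, (m12 l : ℝ) / 17; (m21 l : ℝ) / 17, (m22 l : ℝ) / 17]
    x) 0 = _
  simp [Matrix.mulVec, dotProduct, Fin.sum_univ_two]
  ring

lemma mat_smul_one (l : Fin 9) (x : Fin 2 → ℝ) :
    (mat l • x) 1 = (m21 l * x 0 + m22 l * x 1) / 17 := by
  change (Matrix.mulVec !![(m11 l : ℝ) / 17, (m12 l : ℝ) / 17; (m21 l : ℝ) / 17, (m22 l : ℝ) / 17]
    x) 1 = _
  simp [Matrix.mulVec, dotProduct, Fin.sum_univ_two]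
  ring

lemma mem_square_iff (l : Fin 9) (x : Fin 2 → ℝ) : mat l • x ∈ openSquare ↔
    ((0 < m11 l * x 0 + m12 l * x 1 ∧ m11 l * x 0 + m12 l * x 1 < 17) ∧
      (0 < m21 l * x 0 + m22 l * x 1 ∧ m21 l * x 0 + m22 l * x 1 < 17)) := by
  change ((0 < (mat l • x) 0 ∧ (mat l • x) 0 < 1) ∧ (0 < (mat l • x) 1 ∧ (mat l • x) 1 < 1)) ↔ _
  rw [mat_smul_zero, mat_smul_one]
  constructor
  · rintro ⟨⟨h1, h2⟩, h3, h4⟩
    refine ⟨⟨?_, ?_⟩, ?_, ?_⟩ <;> linarith
  · rintro ⟨⟨h1, h2⟩, h3, h4⟩
    refine ⟨⟨?_, ?_⟩, ?_, ?_⟩ <;> linarith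

lemma mem_of (l : Fin 9) (x : Fin 2 → ℝ) (a b c d : ℤ) (ha : m11 l = a) (hb : m12 l = b)
    (hc : m21 l = c) (hd : m22 l = d) (h1 : 0 < (a : ℝ) * x 0 + b * x 1)
    (h2 : (a : ℝ) * x 0 + b * x 1 < 17) (h3 : 0 < (c : ℝ) * x 0 + d * x 1)
    (h4 : (c : ℝ) * x 0 + d * x 1 < 17) : mat l • x ∈ openSquare := by
  rw [mem_square_iff, ha, hb, hc, hd]
  exact ⟨⟨h1, h2⟩, h3, h4⟩

/-- Every point of the square is sent into the square by three different matrices. -/
lemma three_letters (x : Fin 2 → ℝ) (hx : x ∈ openSquare) :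
    ∃ i j k : Fin 9, i ≠ j ∧ i ≠ k ∧ j ≠ k ∧
      mat i • x ∈ openSquare ∧ mat j • x ∈ openSquare ∧ mat k • x ∈ openSquare := by
  obtain ⟨⟨h1, h2⟩, h3, h4⟩ := hx
  rcases lt_or_ge (2 * x 1) (x 0) with ha | ha
  · refine ⟨0, 1, 2, by decide, by decide, by decide, ?_, ?_, ?_⟩
    · exact mem_of 0 x (9) (-17) (8) (17) rfl rfl rfl rfl (by push_cast; linarith)
          (by push_cast; linarith) (by push_cast; linarith) (by push_cast; linarith)
    · exact mem_of 1 x (10) (-19) (1) (27) rfl rfl rfl rfl (by push_cast; linarith)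
          (by push_cast; linarith) (by push_cast; linarith) (by push_cast; linarith)
    · exact mem_of 2 x (11) (-18) (2) (23) rfl rfl rfl rfl (by push_cast; linarith)
          (by push_cast; linarith) (by push_cast; linarith) (by push_cast; linarith)
  · rcases lt_or_ge (2 * x 0) (x 1) with hb | hb
    · refine ⟨3, 4, 5, by decide, by decide, by decide, ?_, ?_, ?_⟩
      · exact mem_of 3 x (23) (2) (-18) (11) rfl rfl rfl rfl (by push_cast; linarith)
          (by push_cast; linarith) (by push_cast; linarith) (by push_cast; linarith)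
      · exact mem_of 4 x (19) (4) (-20) (11) rfl rfl rfl rfl (by push_cast; linarith)
          (by push_cast; linarith) (by push_cast; linarith) (by push_cast; linarith)
      · exact mem_of 5 x (13) (7) (-19) (12) rfl rfl rfl rfl (by push_cast; linarith)
          (by push_cast; linarith) (by push_cast; linarith) (by push_cast; linarith)
    · refine ⟨6, 7, 8, by decide, by decide, by decide, ?_, ?_, ?_⟩
      · exact mem_of 6 x (18) (-5) (-7) (18) rfl rfl rfl rfl (by push_cast; linarith)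
          (by push_cast; linarith) (by push_cast; linarith) (by push_cast; linarith)
      · exact mem_of 7 x (19) (-8) (-9) (19) rfl rfl rfl rfl (by push_cast; linarith)
          (by push_cast; linarith) (by push_cast; linarith) (by push_cast; linarith)
      · exact mem_of 8 x (19) (-9) (-8) (19) rfl rfl rfl rfl (by push_cast; linarith)
          (by push_cast; linarith) (by push_cast; linarith) (by push_cast; linarith)

variable (V : ValuationSubring ℝ)

/-- The matrix `mat l` does not shrink `17 x`. -/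
def Good (l : Fin 9) (x : Fin 2 → ℝ) : Prop :=
  sz V (x 0) (x 1) ≤ V.valuation (m11 l * x 0 + m12 l * x 1)

lemma good_or_good (h17 : V.valuation (17 : ℝ) < 1) (x : Fin 2 → ℝ) (l k : Fin 9) (h : l ≠ k) :
    Good V l x ∨ Good V k x := by
  by_contra hc
  unfold Good at hc
  push Not at hc
  exact not_both V h17 _ _ _ _ (rows_indep l k h) _ _ hc.1 hc.2

/-- Every point of the square is sent into the square by two different good matrices. -/
lemma two_letters (h17 : V.valuation (17 : ℝ) < 1) (x : Fin 2 → ℝ) (hx : x ∈ openSquare) :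
    ∃ i j : Fin 9, i ≠ j ∧ (Good V i x ∧ mat i • x ∈ openSquare) ∧
      (Good V j x ∧ mat j • x ∈ openSquare) := by
  obtain ⟨i, j, k, hij, hik, hjk, hi, hj, hk⟩ := three_letters x hx
  by_cases gi : Good V i x
  · rcases good_or_good V h17 x j k hjk with g | g
    · exact ⟨i, j, hij, ⟨gi, hi⟩, g, hj⟩
    · exact ⟨i, k, hik, ⟨gi, hi⟩, g, hk⟩
  · have gj : Good V j x := (good_or_good V h17 x i j hij).resolve_left gi
    have gk : Good V k x := (good_or_good V h17 x i k hik).resolve_left gi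
    exact ⟨j, k, hjk, ⟨gj, hj⟩, gk, hk⟩

/-- The direction of the image under a good matrix remembers the matrix. -/
lemma image_dir (h17 : V.valuation (17 : ℝ) < 1) (l : Fin 9) (x : Fin 2 → ℝ)
    (hx : x ∈ openSquare) (hg : Good V l x) :
    V.valuation (((-m21 l : ℤ) : ℝ) * (mat l • x) 0 + (m11 l : ℝ) * (mat l • x) 1)
      < sz V ((mat l • x) 0) ((mat l • x) 1) := by
  have hd : (m11 l : ℝ) * m22 l - m12 l * m21 l = 289 := by exact_mod_cast det_eq l
  have e : ((-m21 l : ℤ) : ℝ) * (mat l • x) 0 + (m11 l : ℝ) * (mat l • x) 1 = 17 * x 1 := by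
    rw [mat_smul_zero, mat_smul_one]
    push_cast
    have : (-(m21 l : ℝ)) * ((m11 l * x 0 + m12 l * x 1) / 17)
        + m11 l * ((m21 l * x 0 + m22 l * x 1) / 17)
        = ((m11 l : ℝ) * m22 l - m12 l * m21 l) / 17 * x 1 := by ring
    rw [this, hd]; ring
  rw [e, map_mul]
  have hpos : (0 : V.ValueGroup) < sz V (x 0) (x 1) := by
    refine lt_of_lt_of_le ?_ (le_max_left _ _)
    rw [zero_lt_iff, Valuation.ne_zero_iff]
    exact ne_of_gt hx.1.1
  have h0 : V.valuation (17 : ℝ) ≠ 0 := by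
    rw [Valuation.ne_zero_iff]; norm_num
  have e2 : V.valuation ((mat l • x) 0) * V.valuation (17 : ℝ)
      = V.valuation (m11 l * x 0 + m12 l * x 1) := by
    rw [← map_mul, mat_smul_zero]
    congr 1
    field_simp
  have h1 : V.valuation (17 : ℝ) * V.valuation (x 1) ≤ V.valuation (17 : ℝ) * sz V (x 0) (x 1) :=
    mul_le_mul_right (le_max_right _ _) _
  have h2 : V.valuation (17 : ℝ) * sz V (x 0) (x 1) < 1 * sz V (x 0) (x 1) :=
    mul_lt_mul_of_pos_right h17 hpos
  have h3 : sz V (x 0) (x 1) ≤ V.valuation ((mat l • x) 0) := by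
    refine hg.trans ?_
    rw [← e2]
    exact mul_le_of_le_one_right' h17.le
  rw [one_mul] at h2
  exact lt_of_le_of_lt h1 (lt_of_lt_of_le h2 (h3.trans (le_max_left _ _)))

lemma letter_unique (h17 : V.valuation (17 : ℝ) < 1) (l k : Fin 9) (x y : Fin 2 → ℝ)
    (hx : x ∈ openSquare) (hy : y ∈ openSquare) (hgx : Good V l x) (hgy : Good V k y)
    (hxy : mat l • x = mat k • y) : l = k := by
  by_contra hne
  have h1 := image_dir V h17 l x hx hgx
  have h2 := image_dir V h17 k y hy hgy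
  rw [← hxy] at h2
  exact not_both V h17 _ _ _ _ (cols_indep l k hne) _ _ h1 h2

/-- The open unit square is `SL₂(ℝ)`-paradoxical. -/
theorem result : IsParadoxical (SpecialLinearGroup (Fin 2) ℝ) openSquare := by
  obtain ⟨V, h17⟩ := exists_val
  choose! f1 f2 hne hf1 hf2 using two_letters V h17
  refine ⟨9, 9, fun l => {z | ∃ x ∈ openSquare, f1 x = l ∧ z = mat l • x},
    fun l => {z | ∃ x ∈ openSquare, f2 x = l ∧ z = mat l • x},
    fun l => (mat l)⁻¹, fun l => (mat l)⁻¹, by norm_num, by norm_num, ?_, ?_, ?_, ?_, ?_, ?_, ?_⟩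
  · rintro l z ⟨x, hx, rfl, rfl⟩
    exact (hf1 x hx).2
  · rintro l z ⟨x, hx, rfl, rfl⟩
    exact (hf2 x hx).2
  · intro l k hlk
    rw [Set.disjoint_left]
    rintro z ⟨x, hx, rfl, rfl⟩ ⟨y, hy, rfl, h⟩
    exact hlk (letter_unique V h17 _ _ x y hx hy (hf1 x hx).1 (hf1 y hy).1 h)
  · intro l k hlk
    rw [Set.disjoint_left]
    rintro z ⟨x, hx, rfl, rfl⟩ ⟨y, hy, rfl, h⟩
    exact hlk (letter_unique V h17 _ _ x y hx hy (hf2 x hx).1 (hf2 y hy).1 h)
  · intro l k
    rw [Set.disjoint_left]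
    rintro z ⟨x, hx, rfl, rfl⟩ ⟨y, hy, rfl, h⟩
    have hlk := letter_unique V h17 _ _ x y hx hy (hf1 x hx).1 (hf2 y hy).1 h
    rw [hlk] at h
    have hxy : x = y := smul_left_cancel _ h
    subst hxy
    exact hne x hx hlk
  · ext z
    rw [Set.mem_iUnion]
    constructor
    · intro hz
      refine ⟨f1 z, ?_⟩
      rw [Set.mem_smul_set_iff_inv_smul_mem, inv_inv]
      exact ⟨z, hz, rfl, rfl⟩
    · rintro ⟨l, hl⟩
      rw [Set.mem_smul_set_iff_inv_smul_mem, inv_inv] at hl
      obtain ⟨x, hx, -, h⟩ := hl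
      rw [smul_left_cancel _ h]
      exact hx
  · ext z
    rw [Set.mem_iUnion]
    constructor
    · intro hz
      refine ⟨f2 z, ?_⟩
      rw [Set.mem_smul_set_iff_inv_smul_mem, inv_inv]
      exact ⟨z, hz, rfl, rfl⟩
    · rintro ⟨l, hl⟩
      rw [Set.mem_smul_set_iff_inv_smul_mem, inv_inv] at hl
      obtain ⟨x, hx, -, h⟩ := hl
      rw [smul_left_cancel _ h]
      exact hx

end Pool.Agent.Results.MP_104382_al.SquareSLParadoxical
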